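import Mathlib

set_option autoImplicit false

namespace Pool.Agent.H.MP_645dd0_co

/-- `K_3^3`: the triangle `0,1,2` with pendant vertices `3,4,5` attached to `0,1,2` -/
def net : SimpleGraph (Fin 6) :=
  SimpleGraph.fromRel fun a b =>
    (a = 0 ∧ b = 1) ∨ (a = 0 ∧ b = 2) ∨ (a = 1 ∧ b = 2) ∨
      (a = 0 ∧ b = 3) ∨ (a = 1 ∧ b = 4) ∨ (a = 2 ∧ b = 5)

/-- `G` has no subgraph isomorphic to `F`, and `G + uv` has one for every non-adjacent pair -/
def Saturated {W V : Type} (F : SimpleGraph W) (G : SimpleGraph V) : Prop :=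
  ¬ F.IsContained G ∧
    ∀ u v : V, u ≠ v → ¬ G.Adj u v → F.IsContained (G ⊔ SimpleGraph.edge u v)

/-- the minimum number of edges of an `F`-saturated graph on `n` vertices -/
noncomputable def sat {W : Type} (n : ℕ) (F : SimpleGraph W) : ℕ :=
  sInf {m : ℕ | ∃ G : SimpleGraph (Fin n), Saturated F G ∧ G.edgeSet.ncard = m}

/-- `H_n`: vertex `0` joined to everything, the triangle `1,2,3`, and the disjoint edges
`45, 67, …` -/
def H (n : ℕ) : SimpleGraph (Fin n) :=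
  SimpleGraph.fromRel fun a b =>
    a.val = 0 ∨ (a.val ≤ 3 ∧ b.val ≤ 3) ∨ (4 ≤ a.val ∧ 4 ≤ b.val ∧ a.val / 2 = b.val / 2)

end Pool.Agent.H.MP_645dd0_co
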